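import Pool.Agent.AM.AllM
import Pool.Agent.AM.BlkC
import Pool.Agent.AM.Main
import Pool.Agent.AM.U5

set_option autoImplicit false

/-!
# For every finite field: a polynomial time oracle algorithm that finds representations of almost all
representable matroids
-/

namespace Pool.Agent.Results.MP_c023e2_lc.AlmostAll

open Pool.Agent.Helper22 Pool.Agent.AM

/-- For every finite field `K` there is one polynomial time oracle procedure which, for every
matroid `M` representable over `K` and given by an independence oracle, returns a flag that says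
whether `M` is rich, and finds a representation of `M` over `K` if it is. All representable matroids
with `n` elements but an exponentially small fraction are rich, and for every matrix `A` with `r`
rows almost all matroids of matrices `[I | D | A]` with `s` random columns `D` are, if `s` is at
least a constant times `log r`. -/
theorem result (K : Type) [Field K] [Fintype K] (e : Fin (Fintype.card K) ≃ K) :
    (∃ P : OracleProc (List Bool) (Bool × List (List ℕ)),
      ∀ (n : ℕ) (M : Matroid (Fin n)) (X : Oracle), M ∈ RepM K n → IsOracle X M →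
        ((P.run X (List.replicate n true)).1 = true ↔ Rich (Fintype.card K) M) ∧
        (Rich (Fintype.card K) M →
          (∀ r ∈ (P.run X (List.replicate n true)).2,
            r.length = n ∧ ∀ c ∈ r, c < Fintype.card K) ∧
          IsRep M (outM K e n (P.run X (List.replicate n true)).2))) ∧
    (∃ C c : ℝ, 0 < c ∧ ∀ n : ℕ,
      ({M ∈ RepM K n | ¬ Rich (Fintype.card K) M}.ncard : ℝ) ≤
        C * Real.exp (-c * n) * ((RepM K n).ncard : ℝ)) ∧
    ∀ r s t : ℕ, 3 ≤ r → ∀ A : Matrix (Fin r) (Fin t) K,
      ({D : Matrix (Fin r) (Fin s) K | ∃ M : Matroid (Fin (r + s + t)), M.E = Set.univ ∧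
        IsRep M (blk D A) ∧ ¬ Rich (Fintype.card K) M}.ncard : ℝ) ≤
      (r : ℝ) ^ 2 * (Fintype.card K : ℝ) ^ 3 * (1 - ((Fintype.card K : ℝ) ^ 3)⁻¹) ^ s *
        (Nat.card (Matrix (Fin r) (Fin s) K) : ℝ) := by
  refine ⟨?_, almost_all K, ?_⟩
  · obtain ⟨P, hP⟩ := up_algQ e
    refine ⟨P, fun n M X hM hX => ?_⟩
    rw [hP]
    exact alg_main e hM hX
  · intro r s t hr A
    have h1 : {D : Matrix (Fin r) (Fin s) K | ∃ M : Matroid (Fin (r + s + t)), M.E = Set.univ ∧
        IsRep M (blk D A) ∧ ¬ Rich (Fintype.card K) M} =
        {D : Matrix (Fin r) (Fin s) K | ¬ Rich (Fintype.card K) (linM (blk D A))} := by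
      ext D
      constructor
      · rintro ⟨M, hE, hM, hR⟩
        rw [linM_unique hE hM] at hR
        exact hR
      · intro hR
        exact ⟨linM (blk D A), linM_E _, linM_rep _, hR⟩
    rw [h1]
    exact blk_count hr A

end Pool.Agent.Results.MP_c023e2_lc.AlmostAll
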