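import Pool.Agent.BW.MatR
import Pool.Agent.BW.UJ

set_option autoImplicit false

/-!
# For every finite field: a polynomial time oracle algorithm that finds representations of matroids
of bounded branch-width
-/

namespace Pool.Agent.Results.MP_c023e2_lc.BoundedBranchWidth

open Pool.Agent.Helper22 Pool.Agent.BW

/-- the columns of the matrix `A` represent the matroid `M` -/
def IsRep {K : Type} [Field K] {m n : ℕ} (M : Matroid (Fin n)) (A : Matrix (Fin m) (Fin n) K) :
    Prop :=
  ∀ J : Finset (Fin n), M.Indep (J : Set (Fin n)) ↔
    LinearIndependent K fun j : J => fun i => A i j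

/-- `X` is an independence oracle of the matroid `M`: the set `J` is submitted as its
characteristic word of length `n` -/
def IsOracle {n : ℕ} (X : Oracle) (M : Matroid (Fin n)) : Prop :=
  ∀ J : Finset (Fin n),
    X (List.ofFn fun i => decide (i ∈ J)) = true ↔ M.Indep (J : Set (Fin n))

/-- the connectivity `r J + r (E - J) - r E` of the set `J` is at most `k` -/
def ConnLE {n : ℕ} (M : Matroid (Fin n)) (k : ℕ) (J : Finset (Fin n)) : Prop :=
  M.eRk (J : Set (Fin n)) + M.eRk ((J : Set (Fin n))ᶜ) ≤ M.eRk Set.univ + (k : ℕ∞)

/-- `J` has a rooted branch decomposition of width at most `k`: it is obtained from one-element sets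
by unions of two disjoint sets, and all the sets that occur have connectivity at most `k` -/
inductive Decomposes {n : ℕ} (M : Matroid (Fin n)) (k : ℕ) : Finset (Fin n) → Prop
  | single (x : Fin n) : ConnLE M k {x} → Decomposes M k {x}
  | union (A B : Finset (Fin n)) : Decomposes M k A → Decomposes M k B → Disjoint A B →
      ConnLE M k (A ∪ B) → Decomposes M k (A ∪ B)

/-- the branch-width of `M` is at most `k` -/
def BranchWidthLE {n : ℕ} (M : Matroid (Fin n)) (k : ℕ) : Prop :=
  n = 0 ∨ Decomposes M k Finset.univ

/-- the matrix with the rows `R`, where the number `c` stands for the element `e c` of the field -/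
def outM (K : Type) [Field K] [Fintype K] (e : Fin (Fintype.card K) ≃ K) (n : ℕ)
    (R : List (List ℕ)) : Matrix (Fin R.length) (Fin n) K :=
  fun i j => if h : (R.get i).getD (j : ℕ) 0 < Fintype.card K then
    e ⟨(R.get i).getD (j : ℕ) 0, h⟩ else 0

theorem decA_of {K : Type} [Field K] {a n : ℕ} {M : Matroid (Fin n)}
    (A : Matrix (Fin a) (Fin n) K) (hA : IsRep M A) {k : ℕ} {J : Finset (Fin n)}
    (h : Decomposes M k J) : DecA A (k + 1) (J.image fun j : Fin n => (j : ℕ)) := by
  induction h with
  | single x hx =>
    rw [Finset.image_singleton]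
    refine DecA.single (x : ℕ) x.2 ?_
    have h1 := (conn_iff A hA {x} k).1 hx
    rw [Finset.image_singleton] at h1
    push_cast
    linarith
  | union B C hB hC hd hk ihB ihC =>
    rw [Finset.image_union]
    refine DecA.union _ _ ihB ihC ?_ ?_
    · rw [Finset.disjoint_left]
      intro y hy hy'
      obtain ⟨b, hb, rfl⟩ := Finset.mem_image.1 hy
      obtain ⟨c, hc, hbc⟩ := Finset.mem_image.1 hy'
      rw [Fin.val_injective hbc] at hc
      exact Finset.disjoint_left.1 hd hb hc
    · have h1 := (conn_iff A hA (B ∪ C) k).1 hk
      rw [Finset.image_union] at h1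
      push_cast
      linarith

/-- For every finite field `K` and every `k` there is one polynomial time oracle procedure which
finds, for every matroid of branch-width at most `k` that is representable over `K` and is given by an
independence oracle, a representation over `K`. -/
theorem result (K : Type) [Field K] [Fintype K] (e : Fin (Fintype.card K) ≃ K) (k : ℕ) :
    ∃ P : OracleProc (List Bool) (List (List ℕ)),
      ∀ (n : ℕ) (M : Matroid (Fin n)) (X : Oracle), IsOracle X M →
      (∃ (m : ℕ) (A : Matrix (Fin m) (Fin n) K), IsRep M A) → BranchWidthLE M k →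
        (∀ r ∈ P.run X (List.replicate n true), r.length = n ∧ ∀ c ∈ r, c < Fintype.card K) ∧
        IsRep M (outM K e n (P.run X (List.replicate n true))) := by
  obtain ⟨P, hP⟩ := up_alg e (3 * (k + 1) + 1) (ncl K (k + 1)) (k + 1) (rnd K (k + 1))
  refine ⟨P, ?_⟩
  rintro n M X hX ⟨m, A, hA⟩ hb
  have hd : n = 0 ∨ DecA A (k + 1) (Finset.range n) := by
    rcases hb with h0 | h1
    · exact Or.inl h0
    · right
      have h2 := decA_of A hA h1
      rwa [image_univ'] at h2
  have h := alg_correct e A (fun J => (hX J).trans (hA J)) (k := k + 1) (by omega) hd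
    (List.replicate n true) (by simp) (P.run X (List.replicate n true)) (hP X _)
  exact ⟨h.1, fun J => (hA J).trans (h.2 J).symm⟩

end Pool.Agent.Results.MP_c023e2_lc.BoundedBranchWidth
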