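import Pool.Agent.PM.C8
import Pool.Agent.PM.U9

set_option autoImplicit false

/-!
# For every finite field: a polynomial time oracle algorithm that finds representations of all
3-connected representable matroids with a given minor that is the projective plane of the field
-/

namespace Pool.Agent.Results.MP_c023e2_lc.PlaneMinor

open Pool.Agent.Helper22 Pool.Agent.AM Pool.Agent.PM

/-- For every finite field `K` with `q` elements there is one polynomial time oracle procedure
which, for every 3-connected matroid `M` representable over `K`, given by an independence oracle,
and every set `C` such that the contraction `M / C` has rank three and `q ^ 2 + q + 1` points (so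
that it is, up to parallel elements and loops, the projective plane over `K`), returns a
representation of `M` over `K`. -/
theorem result (K : Type) [Field K] [Fintype K] (e : Fin (Fintype.card K) ≃ K) :
    ∃ P : OracleProc (List Bool) (List (List ℕ)),
      ∀ (n : ℕ) (M : Matroid (Fin n)) (X : Oracle), M ∈ RepM K n → IsOracle X M →
        ThreeConnected M → ∀ C : Finset (Fin n), (M.contract (C : Set (Fin n))).eRank = 3 →
        HasPoints M (C : Set (Fin n)) (Fintype.card K ^ 2 + Fintype.card K + 1) →
          (∀ r ∈ P.run X (List.ofFn fun i => decide (i ∈ C)),
            r.length = n ∧ ∀ c ∈ r, c < Fintype.card K) ∧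
          IsRep M (outM K e n (P.run X (List.ofFn fun i => decide (i ∈ C)))) := by
  classical
  obtain ⟨P, hP⟩ := up_algP e
  refine ⟨P, fun n M X hM hX h3 C h1 h2 => ?_⟩
  rw [hP]
  exact alg_correct e hM hX h3 C h1 h2

end Pool.Agent.Results.MP_c023e2_lc.PlaneMinor
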