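import Pool.Agent.G4.Final
import Pool.Agent.G4.AlgUP

set_option autoImplicit false

/-!
# A polynomial time oracle algorithm finding representations over the field with four elements
-/

namespace Pool.Agent.Results.MP_c023e2_lc.QuaternaryAlgorithm

open Pool.Agent.Helper22 Pool.Agent.G4

/-- the columns of the matrix `A` represent the matroid `M` -/
def IsRep {K : Type} [Field K] {m n : ℕ} (M : Matroid (Fin n)) (A : Matrix (Fin m) (Fin n) K) :
    Prop :=
  ∀ J : Finset (Fin n), M.Indep (J : Set (Fin n)) ↔
    LinearIndependent K fun j : J => fun i => A i j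

/-- `X` is an independence oracle of the matroid `M`: the set `J` is submitted as its
characteristic word of length `n` -/
def IsOracle {n : ℕ} (X : Oracle) (M : Matroid (Fin n)) : Prop :=
  ∀ J : Finset (Fin n),
    X (List.ofFn fun i => decide (i ∈ J)) = true ↔ M.Indep (J : Set (Fin n))

/-- the matrix over `K` with the rows `R`, where the pair `(a, b)` stands for `a + b ω` -/
def outM (K : Type) [Field K] (ω : K) (n : ℕ) (R : List (List (Bool × Bool))) :
    Matrix (Fin R.length) (Fin n) K :=
  fun i j => toK K ω ((R.get i).getD j (false, false))

/-- One polynomial time oracle procedure finds, for every matroid representable over a field with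
four elements which is given by an independence oracle, a representation over this field. -/
theorem result : ∃ P : OracleProc (List Bool) (List (List (Bool × Bool))),
    ∀ (n : ℕ) (M : Matroid (Fin n)) (X : Oracle), IsOracle X M →
    ∀ (K : Type) [Field K] [Fintype K] (ω : K), Fintype.card K = 4 → ω ^ 2 + ω + 1 = 0 →
    (∃ (m : ℕ) (A : Matrix (Fin m) (Fin n) K), IsRep M A) →
      (∀ r ∈ P.run X (List.replicate n true), r.length = n) ∧
      IsRep M (outM K ω n (P.run X (List.replicate n true))) := by
  obtain ⟨P, hP⟩ := alg_up
  refine ⟨P, ?_⟩
  intro n M X hX K _ _ ω hK hω ⟨m, A, hA⟩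
  have h := alg_correct K hK ω hω m n A X (fun J => (hX J).trans (hA J))
    (List.replicate n true) (by simp)
  have e : P.run X (List.replicate n true) = alg X (List.replicate n true) := hP X _
  refine ⟨?_, fun J => ?_⟩
  · intro r hr
    exact h.1 r (e ▸ hr)
  · rw [hA J, ← h.2 J, ← e]
    rfl

end Pool.Agent.Results.MP_c023e2_lc.QuaternaryAlgorithm
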